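import Pool.Agent.Helper76_QDA.Tav

/-!
# QDA, row FRE: the free mass in the bulk of the spectrum
-/

set_option autoImplicit false

open MeasureTheory ProbabilityTheory Function Filter

open scoped BigOperators NNReal ENNReal Matrix InnerProductSpace Topology

noncomputable section

namespace Pool.Agent.QDA.H41

open Pool.Agent.Anderson hiding box mem_box card_box
open Pool.Agent.Loc Pool.Agent.Mob Pool.Agent.Helper54.Bal
  Pool.Agent.Helper96.EXP Pool.Agent.BED

variable {d : ℕ}

/-- the norm of the Laplacian -/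
theorem nLap (f : L2 d) : ‖Lap d f‖ ≤ 2 * d * ‖f‖ := by
  unfold Lap
  rw [ContinuousLinearMap.sum_apply]
  refine (norm_sum_le _ _).trans ?_
  calc ∑ i : Fin d, ‖((shift (Pi.single i 1)).toContinuousLinearMap +
        (shift (-Pi.single i 1)).toContinuousLinearMap) f‖ ≤ ∑ _i : Fin d, 2 * ‖f‖ := by
        apply Finset.sum_le_sum
        intro i _
        rw [ContinuousLinearMap.add_apply]
        refine (norm_add_le _ _).trans ?_
        rw [LinearIsometry.coe_toContinuousLinearMap, LinearIsometry.coe_toContinuousLinearMap,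
          LinearIsometry.norm_map, LinearIsometry.norm_map]
        linarith
    _ = 2 * d * ‖f‖ := by
        rw [Finset.sum_const, Finset.card_univ, Fintype.card_fin, nsmul_eq_mul]
        ring

/-- outside the spectrum the resolvent is small -/
theorem norm_out {y E : ℝ} (hy : 0 < y) :
    (|E| - 2 * d) * ‖G (0 : Site d → ℝ) (zz y E) (del 0)‖ ≤ 1 := by
  have hz : (zz y E).im ≠ 0 := by
    simp [zz]
    exact hy.ne'
  set g := G (0 : Site d → ℝ) (zz y E) (del 0) with hg
  have h1 : Lap d g - zz y E • g = (del 0 : L2 d) := by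
    ext x
    have h2 := G_eq (V := (0 : Site d → ℝ)) hz (del (0 : Site d)) x
    rw [← hg] at h2
    rw [lp.coeFn_sub, Pi.sub_apply, lp.coeFn_smul, Pi.smul_apply, smul_eq_mul, Lap_apply, ← h2]
    simp
    ring
  have h3 : zz y E • g = Lap d g - (del 0 : L2 d) := by
    rw [← h1]
    abel
  have h4 : ‖zz y E‖ * ‖g‖ ≤ 2 * d * ‖g‖ + 1 := by
    rw [← norm_smul, h3]
    refine (norm_sub_le _ _).trans (add_le_add (nLap g) ?_)
    rw [norm_del]
  have h5 : |E| ≤ ‖zz y E‖ := by
    have := Complex.abs_re_le_norm (zz y E)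
    simpa [zz] using this
  have h6 := mul_le_mul_of_nonneg_right h5 (norm_nonneg g)
  linarith

theorem im_out {y E : ℝ} (hy : 0 < y) (hE : 2 * (d : ℝ) < |E|) :
    (g0 d (zz y E)).im ≤ y / (|E| - 2 * d) ^ 2 := by
  have h0 : 0 < |E| - 2 * (d : ℝ) := by linarith
  have h1 := norm_out (d := d) (E := E) hy
  have h2 := H76.ward (0 : Site d → ℝ) hy E
  unfold g0
  rw [h2]
  rw [div_eq_mul_inv]
  refine mul_le_mul_of_nonneg_left ?_ hy.le
  rw [← one_div, le_div_iff₀ (by positivity), ← mul_pow]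
  have h3 : ‖G (0 : Site d → ℝ) (zz y E) (del 0)‖ * (|E| - 2 * d) ≤ 1 := by
    rw [mul_comm]
    exact h1
  calc (‖G (0 : Site d → ℝ) (zz y E) (del 0)‖ * (|E| - 2 * d)) ^ 2 ≤ 1 ^ 2 :=
        pow_le_pow_left₀ (by positivity) h3 2
    _ = 1 := one_pow _

/-- the tail integral -/
theorem tail {y a D : ℝ} (hy : 0 ≤ y) (ha : 0 < a) :
    ∫⁻ E in Set.Ioi (D + a), ENNReal.ofReal (y / (E - D) ^ 2) = ENNReal.ofReal (y / a) := by
  have hder : ∀ x ∈ Set.Ici (D + a), HasDerivAt (fun E : ℝ => -(y / (E - D))) (y / (x - D) ^ 2) x := by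
    intro x hx
    have hx' : x - D ≠ 0 := by
      have : D + a ≤ x := hx
      have h : 0 < x - D := by linarith
      exact h.ne'
    have h1 : HasDerivAt (fun E : ℝ => E - D) 1 x := (hasDerivAt_id x).sub_const D
    have h2 := (h1.inv hx').const_mul (-y)
    have h3 : (fun E : ℝ => -(y / (E - D))) = fun E : ℝ => -y * (E - D)⁻¹ := by
      funext E
      rw [div_eq_mul_inv]
      ring
    rw [h3]
    refine h2.congr_deriv ?_
    field_simp
  have hnn : ∀ x ∈ Set.Ioi (D + a), 0 ≤ y / (x - D) ^ 2 := fun x _ => by positivity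
  have hlim : Tendsto (fun E : ℝ => -(y / (E - D))) atTop (𝓝 0) := by
    have h1 : Tendsto (fun E : ℝ => E - D) atTop atTop := tendsto_atTop_add_const_right _ _ tendsto_id
    have h2 := (h1.const_div_atTop y).neg
    simpa using h2
  have hint := integrableOn_Ioi_deriv_of_nonneg' hder hnn hlim
  have hval := integral_Ioi_of_hasDerivAt_of_nonneg' hder hnn hlim
  rw [← ofReal_integral_eq_lintegral_ofReal hint
    ((ae_restrict_iff' measurableSet_Ioi).2 (Eventually.of_forall hnn)), hval]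
  congr 1
  rw [add_sub_cancel_left]
  ring

theorem fre (hG : GucStmt) : H76.FreStmt := by
  intro d ε hd hε
  obtain ⟨C, hC, hb⟩ := hG d hd
  have hC0 : 0 < C := by linarith
  set a : ℝ := min 1 (ε / (8 * C)) with ha
  have ha0 : 0 < a := lt_min one_pos (by positivity)
  have ha1 : a ≤ 1 := min_le_left _ _
  have ha2 : a * (8 * C) ≤ ε := by
    have h : a ≤ ε / (8 * C) := min_le_right _ _
    rwa [le_div_iff₀ (by positivity)] at h
  refine ⟨a, a * ε / 4, ha0, ha1, by positivity, fun y hy hy0 => ?_⟩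
  have hya : y / a ≤ ε / 4 := by
    rw [div_le_iff₀ ha0]
    linarith
  set F : ℝ → ℝ≥0∞ := fun E => ENNReal.ofReal ((g0 d (zz y E)).im) with hF
  have hFC : ∀ E, F E ≤ ENNReal.ofReal C := by
    intro E
    refine ENNReal.ofReal_le_ofReal ?_
    have hz : 0 < (zz y E).im := by
      rw [H76.zz_im]
      exact hy
    exact (Complex.im_le_norm _).trans (hb _ _ hz hz).1
  have htot : ∫⁻ E : ℝ, F E = ENNReal.ofReal Real.pi := H76.lint_im (0 : Site d → ℝ) hy
  have hright : ∫⁻ E in Set.Ioi (2 * (d : ℝ) + a), F E ≤ ENNReal.ofReal (y / a) := by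
    rw [← tail (D := 2 * (d : ℝ)) hy.le ha0]
    refine setLIntegral_mono' measurableSet_Ioi fun E hE => ?_
    have hE' : 2 * (d : ℝ) + a < E := hE
    have hE0 : 0 ≤ E := by
      have : (0 : ℝ) ≤ d := Nat.cast_nonneg d
      linarith
    refine ENNReal.ofReal_le_ofReal ?_
    have h := im_out (d := d) (E := E) hy (by rw [abs_of_nonneg hE0]; linarith)
    rw [abs_of_nonneg hE0] at h
    exact h
  have hleft : ∫⁻ E in Set.Iio (-(2 * (d : ℝ) + a)), F E ≤ ENNReal.ofReal (y / a) := by
    have h1 := (Measure.measurePreserving_neg (volume : Measure ℝ)).setLIntegral_comp_preimage_emb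
      (MeasurableEquiv.neg ℝ).measurableEmbedding F (Set.Iio (-(2 * (d : ℝ) + a)))
    rw [← h1]
    have h2 : (Neg.neg : ℝ → ℝ) ⁻¹' Set.Iio (-(2 * (d : ℝ) + a)) = Set.Ioi (2 * (d : ℝ) + a) := by
      ext x
      simp only [Set.mem_preimage, Set.mem_Iio, Set.mem_Ioi, neg_lt_neg_iff]
    rw [h2, ← tail (D := 2 * (d : ℝ)) hy.le ha0]
    refine setLIntegral_mono' measurableSet_Ioi fun E hE => ?_
    have hE' : 2 * (d : ℝ) + a < E := hE
    have hE0 : 0 ≤ E := by
      have : (0 : ℝ) ≤ d := Nat.cast_nonneg d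
      linarith
    refine ENNReal.ofReal_le_ofReal ?_
    have h := im_out (d := d) (E := -E) hy (by rw [abs_neg, abs_of_nonneg hE0]; linarith)
    rw [abs_neg, abs_of_nonneg hE0] at h
    exact h
  have hstrip : ∀ u v : ℝ, v - u = 2 * a → ∫⁻ E in Set.Icc u v, F E ≤ ENNReal.ofReal (2 * a * C) := by
    intro u v huv
    calc ∫⁻ E in Set.Icc u v, F E ≤ ∫⁻ _E in Set.Icc u v, ENNReal.ofReal C :=
          lintegral_mono fun E => hFC E
      _ = ENNReal.ofReal (2 * a * C) := by
          rw [setLIntegral_const, Real.volume_Icc, huv, ← ENNReal.ofReal_mul hC0.le]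
          congr 1
          ring
  set B : Set ℝ := Set.Icc (-(2 * (d : ℝ) - a)) (2 * d - a) with hB
  have hcov : (Set.univ : Set ℝ) ⊆ (((B ∪ Set.Icc (-(2 * (d : ℝ) + a)) (-(2 * (d : ℝ) - a))) ∪
      Set.Icc (2 * (d : ℝ) - a) (2 * (d : ℝ) + a)) ∪ Set.Iio (-(2 * (d : ℝ) + a))) ∪
      Set.Ioi (2 * (d : ℝ) + a) := by
    intro x _
    simp only [hB, Set.mem_union, Set.mem_Icc, Set.mem_Iio, Set.mem_Ioi]
    by_cases h1 : x < -(2 * (d : ℝ) + a)
    · exact Or.inl (Or.inr h1)
    · by_cases h2 : 2 * (d : ℝ) + a < x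
      · exact Or.inr h2
      · push Not at h1 h2
        by_cases h3 : x ≤ -(2 * (d : ℝ) - a)
        · exact Or.inl (Or.inl (Or.inl (Or.inr ⟨h1, h3⟩)))
        · by_cases h4 : 2 * (d : ℝ) - a ≤ x
          · exact Or.inl (Or.inl (Or.inr ⟨h4, h2⟩))
          · push Not at h3 h4
            exact Or.inl (Or.inl (Or.inl (Or.inl ⟨h3.le, h4.le⟩)))
  have hsum : ENNReal.ofReal Real.pi ≤ (∫⁻ E in B, F E) + ENNReal.ofReal ε := by
    rw [← htot, ← setLIntegral_univ]
    refine (lintegral_mono_set hcov).trans ?_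
    refine (lintegral_union_le _ _ _).trans ?_
    refine (add_le_add ((lintegral_union_le _ _ _).trans (add_le_add ((lintegral_union_le _ _ _).trans
      (add_le_add ((lintegral_union_le _ _ _).trans (add_le_add le_rfl
        (hstrip _ _ (by ring)))) (hstrip _ _ (by ring)))) hleft)) hright).trans ?_
    rw [add_assoc, add_assoc, add_assoc, ← ENNReal.ofReal_add (by positivity) (by positivity),
      ← ENNReal.ofReal_add (by positivity) (by positivity),
      ← ENNReal.ofReal_add (by positivity) (by positivity)]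
    refine add_le_add le_rfl (ENNReal.ofReal_le_ofReal ?_)
    linarith
  rw [ENNReal.ofReal_sub _ hε.le]
  exact tsub_le_iff_right.2 hsum

end Pool.Agent.QDA.H41
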